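import Mathlib
import Pool.Agent.Helper590.Henon.Final

set_option autoImplicit false

namespace Pool.Agent.Results.MP_fc565b_nt.DominantPrimePower

/-- Rational periodic points of f_c(x,y) = (y, y^2 + c + x): if the denominator of c is a prime power or four
times a prime power, or has a prime power divisor Q with Q^2 at least 144 times the denominator, or if the
absolute value of c is at least 75 times the denominator, then every exact period is one of 1, 2, 3, 4, 6, 8,
and it is one of 1, 2, 4 as soon as the denominator exceeds 16 or the absolute value of c is at least 75 times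
the denominator. -/
theorem result (c : ℚ)
    (hc : 75 * (c.den : ℚ) ≤ |c| ∨
      (∃ p r : ℕ, p.Prime ∧ p ^ r ∣ c.den ∧ 144 * c.den ≤ (p ^ r) ^ 2) ∨
      (∃ p r : ℕ, p.Prime ∧ (c.den = p ^ r ∨ c.den = 4 * p ^ r)))
    (q : ℚ × ℚ)
    (hq : 0 < Function.minimalPeriod (fun q : ℚ × ℚ => (q.2, q.2 ^ 2 + c + q.1)) q) :
    Function.minimalPeriod (fun q : ℚ × ℚ => (q.2, q.2 ^ 2 + c + q.1)) q ∈
        ({1, 2, 3, 4, 6, 8} : Finset ℕ) ∧
      (16 < c.den ∨ 75 * (c.den : ℚ) ≤ |c| →
        Function.minimalPeriod (fun q : ℚ × ℚ => (q.2, q.2 ^ 2 + c + q.1)) q ∈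
          ({1, 2, 4} : Finset ℕ)) := by
  obtain ⟨h1, h2⟩ := Pool.Agent.Helper590.Henon.main c q hq
  have hsub : Function.minimalPeriod (fun q : ℚ × ℚ => (q.2, q.2 ^ 2 + c + q.1)) q ∈
      ({1, 2, 4} : Finset ℕ) →
      Function.minimalPeriod (fun q : ℚ × ℚ => (q.2, q.2 ^ 2 + c + q.1)) q ∈
        ({1, 2, 3, 4, 6, 8} : Finset ℕ) := by
    intro h
    simp only [Finset.mem_insert, Finset.mem_singleton] at h ⊢
    omega
  have hstrong : 16 < c.den ∨ 75 * (c.den : ℚ) ≤ |c| →
      Function.minimalPeriod (fun q : ℚ × ℚ => (q.2, q.2 ^ 2 + c + q.1)) q ∈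
        ({1, 2, 4} : Finset ℕ) := by
    rintro (h | h)
    · rcases hc with hc | hc | hc
      · exact h1 (Or.inl hc)
      · exact h1 (Or.inr (Or.inl hc))
      · exact h1 (Or.inr (Or.inr ⟨h, hc⟩))
    · exact h1 (Or.inl h)
  refine ⟨?_, hstrong⟩
  by_cases h16 : c.den ≤ 16
  · exact h2 h16
  · exact hsub (hstrong (Or.inl (not_le.mp h16)))

end Pool.Agent.Results.MP_fc565b_nt.DominantPrimePower
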